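import Mathlib

set_option autoImplicit false
open Classical

namespace Pool.Agent.V7H39.EPPA

/-- the sum of `G` over the pairs of `e` of colour `b` and colour `!b` -/
noncomputable def val {V : Type} (c : V → Bool) (G : V → V → ZMod 2) (b : Bool) (e : Finset V) :
    ZMod 2 :=
  ∑ u ∈ e.filter (fun u => c u = b), ∑ v ∈ e.filter (fun v => c v = !b), G u v

def Hyp {V : Type} (c : V → Bool) (G : V → V → ZMod 2) (e : Finset V) : Prop :=
  e.card = 4 ∧ (∀ v ∈ e, (e.filter (fun w => c v = c w)).card = 2) ∧ val c G true e = 1

lemma val_symm {V : Type} (c : V → Bool) (G : V → V → ZMod 2) (hG : ∀ u v, G u v = G v u)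
    (b : Bool) (e : Finset V) : val c G b e = val c G (!b) e := by
  unfold val
  rw [Finset.sum_comm]
  simp only [Bool.not_not]
  refine Finset.sum_congr rfl fun u _ => Finset.sum_congr rfl fun v _ => hG _ _

lemma val_any {V : Type} (c : V → Bool) (G : V → V → ZMod 2) (hG : ∀ u v, G u v = G v u)
    (b : Bool) (e : Finset V) : val c G b e = val c G true e := by
  cases b
  · exact val_symm c G hG false e
  · rfl

lemma zmod2_cases (x : ZMod 2) : x = 0 ∨ x = 1 := by
  revert x; decide

lemma add_self (x : ZMod 2) : x + x = 0 := by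
  revert x; decide

/-- parity of the number of hyperedges in a 5-set, the class of colour `b` having 3 elements -/
lemma parity_aux {V : Type} [Fintype V] (c : V → Bool) (G : V → V → ZMod 2)
    (hG : ∀ u v, G u v = G v u) (S : Finset V) (b : Bool)
    (h3 : (S.filter (fun u => c u = b)).card = 3) (h2 : (S.filter (fun u => c u = !b)).card = 2) :
    Even (((Finset.univ : Finset (Finset V)).filter (Hyp c G)).filter (fun e => e ⊆ S)).card := by
  set T := S.filter (fun u => c u = b) with hT
  set U := S.filter (fun u => c u = !b) with hU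
  have hdisj : Disjoint T U := by
    rw [Finset.disjoint_left]
    intro x hx hx'
    simp only [hT, hU, Finset.mem_filter] at hx hx'
    rw [hx.2] at hx'
    cases b <;> simp at hx'
  have hTU : T ∪ U = S := by
    ext x
    simp only [hT, hU, Finset.mem_union, Finset.mem_filter]
    cases b <;> cases h : c x <;> simp
  have hS : S.card = 5 := by
    rw [← hTU, Finset.card_union_of_disjoint hdisj, h3, h2]
  -- the hyperedges in `S`
  have key : (((Finset.univ : Finset (Finset V)).filter (Hyp c G)).filter (fun e => e ⊆ S)) =
      (T.filter (fun w => val c G b (S.erase w) = 1)).image (fun w => S.erase w) := by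
    ext e
    simp only [Finset.mem_filter, Finset.mem_univ, true_and, Finset.mem_image]
    constructor
    · rintro ⟨⟨h4, hcl, hv⟩, hes⟩
      obtain ⟨w, hwS, hwe⟩ : ∃ w ∈ S, w ∉ e := by
        by_contra hcon
        push Not at hcon
        have := Finset.card_le_card (show S ⊆ e from hcon)
        omega
      have he : e = S.erase w := by
        apply Finset.eq_of_subset_of_card_le
        · intro x hx
          exact Finset.mem_erase.2 ⟨fun h => hwe (h ▸ hx), hes hx⟩
        · rw [Finset.card_erase_of_mem hwS]; omega
      have hwT : w ∈ T := by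
        by_contra hwT
        have hwU : w ∈ U := by
          rw [← hTU, Finset.mem_union] at hwS
          exact hwS.resolve_left hwT
        -- any element of T has three companions
        obtain ⟨t, ht⟩ : T.Nonempty := by
          rw [← Finset.card_pos]; omega
        have htS : t ∈ S := by rw [← hTU]; exact Finset.mem_union_left _ ht
        have hte : t ∈ e := by
          rw [he]
          refine Finset.mem_erase.2 ⟨?_, htS⟩
          rintro rfl
          exact hwT ht
        have h1 := hcl t hte
        have h5 : T ⊆ e.filter (fun w => c t = c w) := by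
          intro x hx
          have hxb : c x = b := (Finset.mem_filter.1 hx).2
          have htb : c t = b := (Finset.mem_filter.1 ht).2
          rw [Finset.mem_filter, he]
          refine ⟨Finset.mem_erase.2 ⟨?_, ?_⟩, by rw [hxb, htb]⟩
          · rintro rfl
            exact hwT hx
          · rw [← hTU]; exact Finset.mem_union_left _ hx
        have := Finset.card_le_card h5
        omega
      refine ⟨w, ⟨hwT, ?_⟩, he.symm⟩
      rw [← he, val_any c G hG, hv]
    · rintro ⟨w, ⟨hwT, hval⟩, rfl⟩
      have hwS : w ∈ S := by rw [← hTU]; exact Finset.mem_union_left _ hwT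
      have hwb : c w = b := (Finset.mem_filter.1 hwT).2
      refine ⟨⟨?_, ?_, ?_⟩, Finset.erase_subset _ _⟩
      · rw [Finset.card_erase_of_mem hwS]; omega
      · intro v hv
        have hvS := (Finset.mem_erase.1 hv).2
        have hvw := (Finset.mem_erase.1 hv).1
        rcases Bool.eq_or_eq_not (c v) b with hcv | hcv
        · have : (S.erase w).filter (fun x => c v = c x) = T.erase w := by
            ext x
            simp only [hT, Finset.mem_filter, Finset.mem_erase]
            constructor
            · rintro ⟨⟨h1, h2⟩, h3⟩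
              exact ⟨h1, h2, by rw [← h3, hcv]⟩
            · rintro ⟨h1, h2, h3⟩
              exact ⟨⟨h1, h2⟩, by rw [h3, hcv]⟩
          rw [this, Finset.card_erase_of_mem hwT]; omega
        · have : (S.erase w).filter (fun x => c v = c x) = U := by
            ext x
            simp only [hU, Finset.mem_filter, Finset.mem_erase]
            constructor
            · rintro ⟨⟨h1, h2⟩, h3⟩
              exact ⟨h2, by rw [← h3, hcv]⟩
            · rintro ⟨h2, h3⟩
              refine ⟨⟨?_, h2⟩, by rw [h3, hcv]⟩
              rintro rfl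
              rw [hwb] at h3
              cases b <;> simp at h3
          rw [this]; exact h2
      · rw [← val_any c G hG b]; exact hval
  have hinj : Set.InjOn (fun w => S.erase w)
      ((T.filter (fun w => val c G b (S.erase w) = 1) : Finset V) : Set V) := by
    intro x hx y hy hxy
    have hxS : x ∈ S := by
      rw [← hTU]; exact Finset.mem_union_left _ (Finset.mem_filter.1 hx).1
    by_contra hne
    have : x ∈ S.erase y := Finset.mem_erase.2 ⟨hne, hxS⟩
    have h' : x ∈ S.erase x := by
      have h'' : S.erase x = S.erase y := hxy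
      rw [h'']; exact this
    exact (Finset.mem_erase.1 h').1 rfl
  rw [key, Finset.card_image_of_injOn hinj]
  have hval : ∀ w ∈ T, val c G b (S.erase w) = val c G b S + ∑ v ∈ U, G w v := by
    intro w hw
    have hwb : c w = b := (Finset.mem_filter.1 hw).2
    have e1 : (S.erase w).filter (fun x => c x = b) = T.erase w := by
      ext x
      simp only [hT, Finset.mem_filter, Finset.mem_erase]
      tauto
    have e2 : (S.erase w).filter (fun x => c x = !b) = U := by
      ext x
      simp only [hU, Finset.mem_filter, Finset.mem_erase]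
      constructor
      · rintro ⟨⟨h1, h2⟩, h3⟩
        exact ⟨h2, h3⟩
      · rintro ⟨h2, h3⟩
        refine ⟨⟨?_, h2⟩, h3⟩
        rintro rfl
        rw [hwb] at h3
        cases b <;> simp at h3
    unfold val
    rw [e1, e2, ← hT, ← hU, ← Finset.sum_erase_add T _ hw, add_assoc, add_self, add_zero]
  have hsum : ((T.filter (fun w => val c G b (S.erase w) = 1)).card : ZMod 2) = 0 := by
    rw [Finset.card_filter]
    push_cast
    have : ∀ w ∈ T, ((if val c G b (S.erase w) = 1 then 1 else 0 : ZMod 2)) =
        val c G b S + ∑ v ∈ U, G w v := by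
      intro w hw
      rw [← hval w hw]
      rcases zmod2_cases (val c G b (S.erase w)) with h | h <;> rw [h] <;> simp
    rw [Finset.sum_congr rfl this, Finset.sum_add_distrib, Finset.sum_const, h3]
    have : (∑ w ∈ T, ∑ v ∈ U, G w v) = val c G b S := rfl
    rw [this]
    generalize val c G b S = z
    revert z; decide
  rw [ZMod.natCast_eq_zero_iff_even] at hsum
  exact hsum

lemma three_axioms {V : Type} [Fintype V] (c : V → Bool) (G : V → V → ZMod 2)
    (hG : ∀ u v, G u v = G v u) (S : Finset V) (h5 : S.card = 5)
    (h3 : ∀ v ∈ S, (S.filter (fun w => c v = c w)).card ≤ 3) :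
    Even (((Finset.univ : Finset (Finset V)).filter (Hyp c G)).filter (fun e => e ⊆ S)).card := by
  have hsplit : ∀ b, (S.filter (fun u => c u = b)).card + (S.filter (fun u => c u = !b)).card = 5 := by
    intro b
    rw [← h5, ← Finset.card_union_of_disjoint]
    · congr 1
      ext x
      simp only [Finset.mem_union, Finset.mem_filter]
      cases b <;> cases h : c x <;> simp
    · rw [Finset.disjoint_left]
      intro x hx hx'
      simp only [Finset.mem_filter] at hx hx'
      rw [hx.2] at hx'
      cases b <;> simp at hx'
  have hle : ∀ b, (S.filter (fun u => c u = b)).card ≤ 3 := by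
    intro b
    rcases (S.filter (fun u => c u = b)).eq_empty_or_nonempty with h | ⟨v, hv⟩
    · rw [h]; simp
    · have hvS := (Finset.mem_filter.1 hv).1
      have hvb := (Finset.mem_filter.1 hv).2
      have := h3 v hvS
      have e : S.filter (fun w => c v = c w) = S.filter (fun u => c u = b) := by
        ext x
        simp only [Finset.mem_filter, hvb]
        constructor
        · rintro ⟨h1, h2⟩; exact ⟨h1, h2.symm⟩
        · rintro ⟨h1, h2⟩; exact ⟨h1, h2.symm⟩
      rw [← e]; exact this
  have h1 := hsplit true
  have h2 := hle true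
  have h3' := hle false
  rw [Bool.not_true] at h1
  by_cases h : (S.filter (fun u => c u = true)).card = 3
  · exact parity_aux c G hG S true h (by rw [Bool.not_true]; omega)
  · exact parity_aux c G hG S false (by omega) (by rw [Bool.not_false]; omega)

/-- maps preserving colours up to a swap and `G` up to switching preserve hyperedges -/
lemma hyp_map {V W : Type} (c : V → Bool) (G : V → V → ZMod 2) (d : W → Bool)
    (K : W → W → ZMod 2) (hK : ∀ u v, K u v = K v u) (b : Bool) (s : V → ZMod 2)
    (f : V ↪ W) (hc : ∀ x, d (f x) = xor b (c x))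
    (hs : ∀ x y, c x ≠ c y → K (f x) (f y) = G x y + s x + s y) (e : Finset V) :
    Hyp c G e ↔ Hyp d K (e.map f) := by
  have hcc : ∀ x y, (d (f x) = d (f y)) ↔ c x = c y := by
    intro x y
    rw [hc, hc]
    cases b <;> cases c x <;> cases c y <;> simp
  have h1 : (∀ v ∈ e, (e.filter (fun w => c v = c w)).card = 2) ↔
      (∀ v ∈ e.map f, ((e.map f).filter (fun w => d v = d w)).card = 2) := by
    have key : ∀ x, ((e.map f).filter (fun w => d (f x) = d w)).card =
        (e.filter (fun w => c x = c w)).card := by
      intro x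
      rw [Finset.filter_map, Finset.card_map]
      congr 1
      ext y
      simp only [Finset.mem_filter, Function.comp_apply, hcc]
    constructor
    · intro h v hv
      obtain ⟨x, hx, rfl⟩ := Finset.mem_map.1 hv
      rw [key]; exact h x hx
    · intro h x hx
      rw [← key]; exact h _ (Finset.mem_map_of_mem f hx)
  unfold Hyp
  rw [Finset.card_map]
  have h2 : e.card = 4 → (∀ v ∈ e, (e.filter (fun w => c v = c w)).card = 2) →
      val d K true (e.map f) = val c G true e := by
    intro h4 hcl
    -- each colour class has even size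
    have hev : ∀ β, ((e.filter (fun u => c u = β)).card : ZMod 2) = 0 := by
      intro β
      rw [ZMod.natCast_eq_zero_iff_even]
      rcases (e.filter (fun u => c u = β)).eq_empty_or_nonempty with h | ⟨v, hv⟩
      · rw [h]; simp
      · have hve := (Finset.mem_filter.1 hv).1
        have hvb := (Finset.mem_filter.1 hv).2
        have := hcl v hve
        have e1 : e.filter (fun w => c v = c w) = e.filter (fun u => c u = β) := by
          ext x
          simp only [Finset.mem_filter, hvb]
          constructor
          · rintro ⟨h1, h2⟩; exact ⟨h1, h2.symm⟩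
          · rintro ⟨h1, h2⟩; exact ⟨h1, h2.symm⟩
        rw [← e1, this]; exact even_two
    have e2 : val d K (xor b true) (e.map f) = val c G true e := by
      unfold val
      have f1 : (e.map f).filter (fun u => d u = xor b true) =
          (e.filter (fun u => c u = true)).map f := by
        rw [Finset.filter_map]
        congr 1
        ext x
        simp only [Finset.mem_filter, Function.comp_apply, hc]
        cases b <;> cases c x <;> simp
      have f2 : (e.map f).filter (fun u => d u = !(xor b true)) =
          (e.filter (fun u => c u = !true)).map f := by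
        rw [Finset.filter_map]
        congr 1
        ext x
        simp only [Finset.mem_filter, Function.comp_apply, hc]
        cases b <;> cases c x <;> simp
      rw [f1, f2, Finset.sum_map]
      simp only [Finset.sum_map]
      have f3 : ∀ u ∈ e.filter (fun u => c u = true), ∑ v ∈ e.filter (fun u => c u = !true),
          K (f u) (f v) = (∑ v ∈ e.filter (fun u => c u = !true), G u v) +
            ∑ v ∈ e.filter (fun u => c u = !true), s v := by
        intro u hu
        have hub : c u = true := (Finset.mem_filter.1 hu).2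
        rw [Finset.sum_congr rfl (fun v hv => hs u v (by
          have hvb : c v = !true := (Finset.mem_filter.1 hv).2
          rw [hub, hvb]; simp)), Finset.sum_add_distrib, Finset.sum_add_distrib, Finset.sum_const,
          nsmul_eq_mul, hev (!true), zero_mul, add_zero]
      rw [Finset.sum_congr rfl f3, Finset.sum_add_distrib, Finset.sum_const, nsmul_eq_mul,
        hev true, zero_mul, add_zero]
    rw [← e2, ← val_any d K hK (xor b true)]
  constructor
  · rintro ⟨h4, hcl, hv⟩
    exact ⟨h4, h1.1 hcl, by rw [h2 h4 hcl]; exact hv⟩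
  · rintro ⟨h4, hcl, hv⟩
    have hcl' := h1.2 hcl
    exact ⟨h4, hcl', by rw [← h2 h4 hcl']; exact hv⟩

/-- explicit form of the hyperedges -/
lemma hyp_four {V : Type} (c : V → Bool) (G : V → V → ZMod 2)
    {x x' y y' : V} (hx : x ≠ x') (hy : y ≠ y') (cx : c x = true)
    (cx' : c x' = true) (cy : c y = false) (cy' : c y' = false) :
    Hyp c G {x, x', y, y'} ↔ G x y + G x y' + G x' y + G x' y' = 1 := by
  have n1 : x ≠ y := fun h => by rw [h, cy] at cx; cases cx
  have n2 : x ≠ y' := fun h => by rw [h, cy'] at cx; cases cx
  have n3 : x' ≠ y := fun h => by rw [h, cy] at cx'; cases cx'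
  have n4 : x' ≠ y' := fun h => by rw [h, cy'] at cx'; cases cx'
  have h4 : ({x, x', y, y'} : Finset V).card = 4 := by
    rw [Finset.card_insert_of_notMem, Finset.card_insert_of_notMem, Finset.card_pair hy] <;>
      simp [*]
  have hT : ({x, x', y, y'} : Finset V).filter (fun u => c u = true) = {x, x'} := by
    ext u
    simp only [Finset.mem_filter, Finset.mem_insert, Finset.mem_singleton]
    constructor
    · rintro ⟨rfl | rfl | rfl | rfl, h⟩ <;> simp_all
    · rintro (rfl | rfl) <;> simp [*]
  have hU : ({x, x', y, y'} : Finset V).filter (fun u => c u = false) = {y, y'} := by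
    ext u
    simp only [Finset.mem_filter, Finset.mem_insert, Finset.mem_singleton]
    constructor
    · rintro ⟨rfl | rfl | rfl | rfl, h⟩ <;> simp_all
    · rintro (rfl | rfl) <;> simp [*]
  have hcl : ∀ v ∈ ({x, x', y, y'} : Finset V),
      (({x, x', y, y'} : Finset V).filter (fun w => c v = c w)).card = 2 := by
    intro v hv
    rcases Bool.eq_false_or_eq_true (c v) with h | h
    · have e : (({x, x', y, y'} : Finset V).filter (fun w => c v = c w)) =
          ({x, x', y, y'} : Finset V).filter (fun u => c u = true) :=
        Finset.filter_congr (fun w _ => by rw [h]; exact eq_comm)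
      rw [e, hT, Finset.card_pair hx]
    · have e : (({x, x', y, y'} : Finset V).filter (fun w => c v = c w)) =
          ({x, x', y, y'} : Finset V).filter (fun u => c u = false) :=
        Finset.filter_congr (fun w _ => by rw [h]; exact eq_comm)
      rw [e, hU, Finset.card_pair hy]
  have hv : val c G true {x, x', y, y'} = G x y + G x y' + G x' y + G x' y' := by
    unfold val
    rw [hT, Bool.not_true, hU, Finset.sum_pair hx, Finset.sum_pair hy, Finset.sum_pair hy]
    ring
  unfold Hyp
  rw [hv]
  exact ⟨fun h => h.2.2, fun h => ⟨h4, hcl, h⟩⟩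

/-- a set with four elements, two in each class -/
lemma exists_four {V : Type} (c : V → Bool) (e : Finset V) (h4 : e.card = 4)
    (hcl : ∀ v ∈ e, (e.filter (fun w => c v = c w)).card = 2) :
    ∃ x x' y y', x ≠ x' ∧ y ≠ y' ∧ c x = true ∧ c x' = true ∧ c y = false ∧ c y' = false ∧
      e = {x, x', y, y'} := by
  have hcard : ∀ b, (e.filter (fun u => c u = b)).card = 0 ∨
      (e.filter (fun u => c u = b)).card = 2 := by
    intro b
    rcases (e.filter (fun u => c u = b)).eq_empty_or_nonempty with h | ⟨v, hv⟩
    · left; rw [h]; simp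
    · right
      have hve := (Finset.mem_filter.1 hv).1
      have hvb := (Finset.mem_filter.1 hv).2
      rw [← hcl v hve]
      congr 1
      ext x
      simp only [Finset.mem_filter, hvb, eq_comm]
  have hsplit : (e.filter (fun u => c u = true)).card + (e.filter (fun u => c u = false)).card
      = 4 := by
    rw [← h4, ← Finset.card_union_of_disjoint]
    · congr 1
      ext x
      simp only [Finset.mem_union, Finset.mem_filter]
      cases h : c x <;> simp
    · rw [Finset.disjoint_left]
      intro x hx hx'
      simp only [Finset.mem_filter] at hx hx'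
      rw [hx.2] at hx'
      simp at hx'
  have ht : (e.filter (fun u => c u = true)).card = 2 := by
    rcases hcard true with h | h <;> rcases hcard false with h' | h' <;> omega
  have hf : (e.filter (fun u => c u = false)).card = 2 := by omega
  obtain ⟨x, x', hx, hxe⟩ := Finset.card_eq_two.1 ht
  obtain ⟨y, y', hy, hye⟩ := Finset.card_eq_two.1 hf
  have m1 : x ∈ e.filter (fun u => c u = true) := by rw [hxe]; simp
  have m2 : x' ∈ e.filter (fun u => c u = true) := by rw [hxe]; simp
  have m3 : y ∈ e.filter (fun u => c u = false) := by rw [hye]; simp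
  have m4 : y' ∈ e.filter (fun u => c u = false) := by rw [hye]; simp
  refine ⟨x, x', y, y', hx, hy, (Finset.mem_filter.1 m1).2, (Finset.mem_filter.1 m2).2,
    (Finset.mem_filter.1 m3).2, (Finset.mem_filter.1 m4).2, ?_⟩
  have : e = e.filter (fun u => c u = true) ∪ e.filter (fun u => c u = false) := by
    ext x
    simp only [Finset.mem_union, Finset.mem_filter]
    cases h : c x <;> simp
  rw [this, hxe, hye]
  ext u
  simp only [Finset.mem_union, Finset.mem_insert, Finset.mem_singleton]
  tauto

/-- the indicator of a hyperedge -/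
noncomputable def ind {V : Type} (H : Finset (Finset V)) (x x' y y' : V) : ZMod 2 :=
  if x ≠ x' ∧ y ≠ y' ∧ ({x, x', y, y'} : Finset V) ∈ H then 1 else 0

lemma ind_self {V : Type} (H : Finset (Finset V)) (x y y' : V) : ind H x x y y' = 0 := by
  simp [ind]

lemma ind_self' {V : Type} (H : Finset (Finset V)) (x x' y : V) : ind H x x' y y = 0 := by
  simp [ind]

lemma ind_swap {V : Type} (H : Finset (Finset V)) (x x' y y' : V) :
    ind H x x' y y' = ind H x' x y y' := by
  have e : ({x, x', y, y'} : Finset V) = {x', x, y, y'} := by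
    ext u; simp only [Finset.mem_insert, Finset.mem_singleton]; tauto
  unfold ind
  rw [e]
  simp only [ne_comm (a := x) (b := x')]

lemma ind_swap' {V : Type} (H : Finset (Finset V)) (x x' y y' : V) :
    ind H x x' y y' = ind H x x' y' y := by
  have e : ({x, x', y, y'} : Finset V) = {x, x', y', y} := by
    ext u; simp only [Finset.mem_insert, Finset.mem_singleton]; tauto
  unfold ind
  rw [e]
  simp only [ne_comm (a := y) (b := y')]

lemma ind_flip {V : Type} (H : Finset (Finset V)) (x x' y y' : V) :
    ind H x x' y y' = ind H y y' x x' := by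
  have e : ({x, x', y, y'} : Finset V) = {y, y', x, x'} := by
    ext u; simp only [Finset.mem_insert, Finset.mem_singleton]; tauto
  unfold ind
  rw [e]
  congr 1
  apply propext
  tauto

/-- The axioms, in terms of a colouring. -/
def IsThree {V : Type} (c : V → Bool) (H : Finset (Finset V)) : Prop :=
  (∀ e ∈ H, e.card = 4 ∧ ∀ v ∈ e, (e.filter (fun w => c v = c w)).card = 2) ∧
    (∀ S : Finset V, S.card = 5 → (∀ v ∈ S, (S.filter (fun w => c v = c w)).card ≤ 3) →
      Even (H.filter (fun e => e ⊆ S)).card)

lemma cocycle_aux {V : Type} (c : V → Bool) (H : Finset (Finset V)) (hH : IsThree c H) (b : Bool)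
    {x x' x'' y y' : V} (cx : c x = b) (cx' : c x' = b) (cx'' : c x'' = b) (cy : c y = !b)
    (cy' : c y' = !b) (h1 : x ≠ x') (h2 : x' ≠ x'') (h3 : x ≠ x'') (hy : y ≠ y') :
    ind H x x' y y' + ind H x' x'' y y' + ind H x x'' y y' = 0 := by
  have hb : ∀ {u v : V}, c u = b → c v = !b → u ≠ v := by
    intro u v hu hv h
    rw [h, hv] at hu
    cases b <;> simp at hu
  have n1 := hb cx cy
  have n2 := hb cx cy'
  have n3 := hb cx' cy
  have n4 := hb cx' cy'
  have n5 := hb cx'' cy
  have n6 := hb cx'' cy'
  obtain ⟨S, hS⟩ : ∃ S : Finset V, S = {x, x', x'', y, y'} := ⟨_, rfl⟩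
  have mS : ∀ u, u ∈ S ↔ u = x ∨ u = x' ∨ u = x'' ∨ u = y ∨ u = y' := by
    intro u; rw [hS]; simp only [Finset.mem_insert, Finset.mem_singleton]
  have hScard : S.card = 5 := by
    rw [hS, Finset.card_insert_of_notMem, Finset.card_insert_of_notMem,
      Finset.card_insert_of_notMem, Finset.card_pair hy] <;> simp [*]
  have cls : ∀ v ∈ S, (S.filter (fun w => c v = c w)).card ≤ 3 := by
    intro v hv
    rcases Bool.eq_or_eq_not (c v) b with h | h
    · have : S.filter (fun w => c v = c w) ⊆ {x, x', x''} := by
        intro u hu
        rw [Finset.mem_filter, mS] at hu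
        simp only [Finset.mem_insert, Finset.mem_singleton]
        obtain ⟨hu, hc⟩ := hu
        rw [h] at hc
        rcases hu with hu | hu | hu | hu | hu
        · exact Or.inl hu
        · exact Or.inr (Or.inl hu)
        · exact Or.inr (Or.inr hu)
        · rw [hu, cy] at hc; cases b <;> simp at hc
        · rw [hu, cy'] at hc; cases b <;> simp at hc
      exact (Finset.card_le_card this).trans Finset.card_le_three
    · have : S.filter (fun w => c v = c w) ⊆ {y, y'} := by
        intro u hu
        rw [Finset.mem_filter, mS] at hu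
        simp only [Finset.mem_insert, Finset.mem_singleton]
        obtain ⟨hu, hc⟩ := hu
        rw [h] at hc
        rcases hu with hu | hu | hu | hu | hu
        · rw [hu, cx] at hc; cases b <;> simp at hc
        · rw [hu, cx'] at hc; cases b <;> simp at hc
        · rw [hu, cx''] at hc; cases b <;> simp at hc
        · exact Or.inl hu
        · exact Or.inr hu
      exact ((Finset.card_le_card this).trans Finset.card_le_two).trans (by norm_num)
  have hev := hH.2 S hScard cls
  obtain ⟨e1, he1⟩ : ∃ e : Finset V, e = {x, x', y, y'} := ⟨_, rfl⟩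
  obtain ⟨e2, he2⟩ : ∃ e : Finset V, e = {x', x'', y, y'} := ⟨_, rfl⟩
  obtain ⟨e3, he3⟩ : ∃ e : Finset V, e = {x, x'', y, y'} := ⟨_, rfl⟩
  have m1 : ∀ u, u ∈ e1 ↔ u = x ∨ u = x' ∨ u = y ∨ u = y' := by
    intro u; rw [he1]; simp only [Finset.mem_insert, Finset.mem_singleton]
  have m2 : ∀ u, u ∈ e2 ↔ u = x' ∨ u = x'' ∨ u = y ∨ u = y' := by
    intro u; rw [he2]; simp only [Finset.mem_insert, Finset.mem_singleton]
  have m3 : ∀ u, u ∈ e3 ↔ u = x ∨ u = x'' ∨ u = y ∨ u = y' := by
    intro u; rw [he3]; simp only [Finset.mem_insert, Finset.mem_singleton]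
  have x2 : x ∉ e2 := by
    rw [m2]; push Not; exact ⟨h1, h3, n1, n2⟩
  have x3 : x' ∉ e3 := by
    rw [m3]; push Not; exact ⟨h1.symm, h2, n3, n4⟩
  have d12 : e1 ≠ e2 := by
    intro h
    exact x2 (h ▸ (m1 x).2 (Or.inl rfl))
  have d13 : e1 ≠ e3 := by
    intro h
    exact x3 (h ▸ (m1 x').2 (Or.inr (Or.inl rfl)))
  have d23 : e2 ≠ e3 := by
    intro h
    exact x3 (h ▸ (m2 x').2 (Or.inl rfl))
  have s1 : e1 = S.erase x'' := by
    ext u
    rw [Finset.mem_erase, mS, m1]
    constructor
    · rintro (rfl | rfl | rfl | rfl)
      · exact ⟨h3, by simp⟩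
      · exact ⟨h2, by simp⟩
      · exact ⟨n5.symm, by simp⟩
      · exact ⟨n6.symm, by simp⟩
    · rintro ⟨h, h'⟩; tauto
  have s2 : e2 = S.erase x := by
    ext u
    rw [Finset.mem_erase, mS, m2]
    constructor
    · rintro (rfl | rfl | rfl | rfl)
      · exact ⟨h1.symm, by simp⟩
      · exact ⟨h3.symm, by simp⟩
      · exact ⟨n1.symm, by simp⟩
      · exact ⟨n2.symm, by simp⟩
    · rintro ⟨h, h'⟩; tauto
  have s3 : e3 = S.erase x' := by
    ext u
    rw [Finset.mem_erase, mS, m3]
    constructor
    · rintro (rfl | rfl | rfl | rfl)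
      · exact ⟨h1, by simp⟩
      · exact ⟨h2.symm, by simp⟩
      · exact ⟨n3.symm, by simp⟩
      · exact ⟨n4.symm, by simp⟩
    · rintro ⟨h, h'⟩; tauto
  have hfil : H.filter (fun e => e ⊆ S) = ({e1, e2, e3} : Finset (Finset V)).filter (· ∈ H) := by
    ext e
    simp only [Finset.mem_filter, Finset.mem_insert, Finset.mem_singleton]
    constructor
    · rintro ⟨heH, heS⟩
      refine ⟨?_, heH⟩
      obtain ⟨h4, hcl⟩ := hH.1 e heH
      obtain ⟨w, hwS, hwe⟩ : ∃ w ∈ S, w ∉ e := by
        by_contra hcon
        push Not at hcon
        have := Finset.card_le_card (show S ⊆ e from hcon)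
        omega
      have he : e = S.erase w := by
        apply Finset.eq_of_subset_of_card_le
        · intro x hx
          exact Finset.mem_erase.2 ⟨fun h => hwe (h ▸ hx), heS hx⟩
        · rw [Finset.card_erase_of_mem hwS]; omega
      have hmem : ∀ u, u ∈ S → u ≠ w → u ∈ e := by
        intro u hu huw
        rw [he]; exact Finset.mem_erase.2 ⟨huw, hu⟩
      have three : ¬ (w = y ∨ w = y') := by
        intro hw
        have hxw : ∀ u, c u = b → u ≠ w := by
          intro u hu
          rcases hw with rfl | rfl
          · exact hb hu cy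
          · exact hb hu cy'
        have hxe : x ∈ e := hmem x ((mS x).2 (by simp)) (hxw _ cx)
        have h5 : ({x, x', x''} : Finset V) ⊆ e.filter (fun w => c x = c w) := by
          intro u hu
          simp only [Finset.mem_insert, Finset.mem_singleton] at hu
          rw [Finset.mem_filter]
          rcases hu with hu | hu | hu
          · exact ⟨hu ▸ hxe, by rw [hu]⟩
          · exact ⟨hu ▸ hmem _ ((mS x').2 (by simp)) (hxw _ cx'), by rw [hu, cx, cx']⟩
          · exact ⟨hu ▸ hmem _ ((mS x'').2 (by simp)) (hxw _ cx''), by rw [hu, cx, cx'']⟩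
        have h6 := Finset.card_le_card h5
        rw [hcl x hxe, Finset.card_insert_of_notMem (by simp [h1, h3]), Finset.card_pair h2] at h6
        omega
      have hw : w = x ∨ w = x' ∨ w = x'' := by
        rw [mS] at hwS
        tauto
      rcases hw with hw | hw | hw
      · right; left; rw [he, hw, s2]
      · right; right; rw [he, hw, s3]
      · left; rw [he, hw, s1]
    · rintro ⟨he, heH⟩
      refine ⟨heH, ?_⟩
      rcases he with he | he | he
      · rw [he, s1]; exact Finset.erase_subset _ _
      · rw [he, s2]; exact Finset.erase_subset _ _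
      · rw [he, s3]; exact Finset.erase_subset _ _
  rw [hfil] at hev
  have hz : ((({e1, e2, e3} : Finset (Finset V)).filter (· ∈ H)).card : ZMod 2) = 0 := by
    rw [ZMod.natCast_eq_zero_iff_even]; exact hev
  rw [Finset.card_filter] at hz
  push_cast at hz
  rw [Finset.sum_insert (by simp [d12, d13]), Finset.sum_pair d23] at hz
  unfold ind
  rw [← he1, ← he2, ← he3]
  simp only [ne_eq, h1, h2, h3, hy, not_false_eq_true, true_and]
  rw [add_assoc]
  exact hz

lemma cocycle {V : Type} (c : V → Bool) (H : Finset (Finset V)) (hH : IsThree c H) (b : Bool)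
    {x x' x'' y y' : V} (cx : c x = b) (cx' : c x' = b) (cx'' : c x'' = b) (cy : c y = !b)
    (cy' : c y' = !b) :
    ind H x x' y y' = ind H x'' x y y' + ind H x'' x' y y' := by
  by_cases hy : y = y'
  · subst hy; simp [ind_self']
  by_cases h1 : x = x'
  · subst h1; rw [ind_self, add_self]
  by_cases h2 : x' = x''
  · subst h2; rw [ind_self, add_zero, ind_swap]
  by_cases h3 : x = x''
  · subst h3; rw [ind_self, zero_add]
  have := cocycle_aux c H hH b cx cx' cx'' cy cy' h1 h2 h3 hy
  rw [ind_swap H x'' x, ind_swap H x'' x']
  have h4 : ∀ a b c : ZMod 2, a + b + c = 0 → a = c + b := by decide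
  exact h4 _ _ _ this

/-- every three-graph comes from a function -/
lemma exists_potential {V : Type} (c : V → Bool) (H : Finset (Finset V)) (hH : IsThree c H) :
    ∃ G : V → V → ZMod 2, (∀ u v, G u v = G v u) ∧ ∀ e, e ∈ H ↔ Hyp c G e := by
  by_cases hne : (∃ x0, c x0 = true) ∧ (∃ y0, c y0 = false)
  · obtain ⟨⟨x0, hx0⟩, ⟨y0, hy0⟩⟩ := hne
    let G : V → V → ZMod 2 := fun u v =>
      if c u = c v then 0 else if c u = true then ind H x0 u y0 v else ind H x0 v y0 u
    have hG : ∀ x y, c x = true → c y = false → G x y = ind H x0 x y0 y := by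
      intro x y hx hy
      simp [G, hx, hy]
    refine ⟨G, ?_, ?_⟩
    · intro u v
      simp only [G]
      rcases h : c u <;> rcases h' : c v <;> simp
    · have key : ∀ x x' y y', x ≠ x' → y ≠ y' → c x = true → c x' = true → c y = false →
          c y' = false → (({x, x', y, y'} : Finset V) ∈ H ↔ Hyp c G {x, x', y, y'}) := by
        intro x x' y y' hx hy cx cx' cy cy'
        rw [hyp_four c G hx hy cx cx' cy cy', hG x y cx cy, hG x y' cx cy', hG x' y cx' cy,
          hG x' y' cx' cy']
        have e0 : (({x, x', y, y'} : Finset V) ∈ H) ↔ ind H x x' y y' = 1 := by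
          unfold ind
          simp [hx, hy]
        have e1 := cocycle c H hH true cx cx' hx0 (by simpa using cy) (by simpa using cy')
        have e2 : ∀ z, c z = true → ind H x0 z y y' = ind H x0 z y0 y + ind H x0 z y0 y' := by
          intro z cz
          have := cocycle c H hH false cy cy' hy0 (by simpa using hx0) (by simpa using cz)
          rw [ind_flip H x0 z y y', this, ind_flip H y0 y, ind_flip H y0 y']
        rw [e0, e1, e2 x cx, e2 x' cx']
        ring_nf
      intro e
      constructor
      · intro he
        obtain ⟨h4, hcl⟩ := hH.1 e he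
        obtain ⟨x, x', y, y', hx, hy, cx, cx', cy, cy', rfl⟩ := exists_four c e h4 hcl
        exact (key x x' y y' hx hy cx cx' cy cy').1 he
      · intro he
        obtain ⟨x, x', y, y', hx, hy, cx, cx', cy, cy', rfl⟩ := exists_four c e he.1 he.2.1
        exact (key x x' y y' hx hy cx cx' cy cy').2 he
  · refine ⟨fun _ _ => 0, fun _ _ => rfl, ?_⟩
    intro e
    constructor
    · intro he
      obtain ⟨h4, hcl⟩ := hH.1 e he
      obtain ⟨x, x', y, y', hx, hy, cx, cx', cy, cy', rfl⟩ := exists_four c e h4 hcl
      exact absurd ⟨⟨x, cx⟩, ⟨y, cy⟩⟩ hne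
    · intro he
      obtain ⟨x, x', y, y', hx, hy, cx, cx', cy, cy', rfl⟩ := exists_four c e he.1 he.2.1
      exact absurd ⟨⟨x, cx⟩, ⟨y, cy⟩⟩ hne

/-- partial automorphisms respect the potential up to switching -/
lemma partial_aut {V : Type} (c : V → Bool) (G : V → V → ZMod 2) (hG : ∀ u v, G u v = G v u)
    (S : Finset V) (p : V → V) (hinj : Set.InjOn p (S : Set V))
    (hc : ∀ x ∈ S, ∀ y ∈ S, c x = c y ↔ c (p x) = c (p y))
    (hH : ∀ e ⊆ S, Hyp c G e ↔ Hyp c G (e.image p)) :
    ∃ (b : Bool) (s : V → ZMod 2), (∀ x ∈ S, c (p x) = xor b (c x)) ∧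
      ∀ x ∈ S, ∀ y ∈ S, c x ≠ c y → G (p x) (p y) = G x y + s x + s y := by
  -- the swap
  obtain ⟨b, hb⟩ : ∃ b, ∀ x ∈ S, c (p x) = xor b (c x) := by
    rcases S.eq_empty_or_nonempty with h | ⟨v, hv⟩
    · exact ⟨true, by rw [h]; simp⟩
    · refine ⟨xor (c (p v)) (c v), fun x hx => ?_⟩
      have := hc x hx v hv
      rcases h1 : c x <;> rcases h2 : c v <;> rcases h3 : c (p x) <;> rcases h4 : c (p v) <;>
        simp [h1, h2, h3, h4] at this ⊢
  by_cases hne : (∃ x0 ∈ S, c x0 = true) ∧ (∃ y0 ∈ S, c y0 = false)
  · obtain ⟨⟨x0, hx0, cx0⟩, ⟨y0, hy0, cy0⟩⟩ := hne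
    -- the difference
    let D : V → V → ZMod 2 := fun x y => G (p x) (p y) + G x y
    have hD : ∀ x ∈ S, ∀ x' ∈ S, ∀ y ∈ S, ∀ y' ∈ S, c x = true → c x' = true → c y = false →
        c y' = false → D x y + D x y' + D x' y + D x' y' = 0 := by
      intro x hx x' hx' y hy y' hy' cx cx' cy cy'
      have triv : ∀ a b : ZMod 2, a + b + a + b = 0 := by decide
      have triv2 : ∀ a b : ZMod 2, a + a + b + b = 0 := by decide
      by_cases h1 : x = x'
      · subst h1; exact triv _ _
      by_cases h2 : y = y'
      · subst h2; exact triv2 _ _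
      have g1 := hyp_four c G h1 h2 cx cx' cy cy'
      have hp1 : p x ≠ p x' := fun h => h1 (hinj hx hx' h)
      have hp2 : p y ≠ p y' := fun h => h2 (hinj hy hy' h)
      have g3 := hH {x, x', y, y'} (by
        intro u hu
        simp only [Finset.mem_insert, Finset.mem_singleton] at hu
        rcases hu with rfl | rfl | rfl | rfl <;> assumption)
      have him : ({x, x', y, y'} : Finset V).image p = {p x, p x', p y, p y'} := by
        simp [Finset.image_insert]
      rw [him] at g3
      have g2 : Hyp c G {p x, p x', p y, p y'} ↔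
          G (p x) (p y) + G (p x) (p y') + G (p x') (p y) + G (p x') (p y') = 1 := by
        cases b
        · refine hyp_four c G hp1 hp2 ?_ ?_ ?_ ?_
          · rw [hb x hx, cx]; rfl
          · rw [hb x' hx', cx']; rfl
          · rw [hb y hy, cy]; rfl
          · rw [hb y' hy', cy']; rfl
        · have e : ({p x, p x', p y, p y'} : Finset V) = {p y, p y', p x, p x'} := by
            ext u; simp only [Finset.mem_insert, Finset.mem_singleton]; tauto
          rw [e, hyp_four c G hp2 hp1 (by rw [hb y hy, cy]; rfl) (by rw [hb y' hy', cy']; rfl)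
            (by rw [hb x hx, cx]; rfl) (by rw [hb x' hx', cx']; rfl), hG (p x) (p y),
            hG (p x) (p y'), hG (p x') (p y), hG (p x') (p y')]
          have : ∀ a b c d : ZMod 2, a + b + c + d = a + c + b + d := by decide
          rw [this]
      rw [g1, g2] at g3
      simp only [D]
      have fin : ∀ a b c d a' b' c' d' : ZMod 2, (a + b + c + d = 1 ↔ a' + b' + c' + d' = 1) →
          (a' + a) + (b' + b) + (c' + c) + (d' + d) = 0 := by
        intro a b c d a' b' c' d' h
        have e1 : (a' + a) + (b' + b) + (c' + c) + (d' + d) =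
            (a + b + c + d) + (a' + b' + c' + d') := by ring
        rw [e1]
        rcases zmod2_cases (a + b + c + d) with h1 | h1 <;>
          rcases zmod2_cases (a' + b' + c' + d') with h2 | h2 <;> rw [h1, h2] at h ⊢
        · simp
        · simp at h
        · simp at h
        · exact add_self 1
      exact fin _ _ _ _ _ _ _ _ g3
    refine ⟨b, fun z => if c z = true then D z y0 else D x0 z + D x0 y0, hb, ?_⟩
    have main : ∀ x ∈ S, ∀ y ∈ S, c x = true → c y = false →
        G (p x) (p y) = G x y + D x y0 + (D x0 y + D x0 y0) := by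
      intro x hx y hy cx cy
      have h1 := hD x hx x0 hx0 y hy y0 hy0 cx cx0 cy cy0
      have h2 : D x y = G (p x) (p y) + G x y := rfl
      have fin : ∀ a b c d g g' : ZMod 2, a + b + c + d = 0 → a = g' + g → g' = g + b + (c + d) := by
        decide
      exact fin _ _ _ _ _ _ h1 h2
    intro x hx y hy hxy
    rcases Bool.eq_false_or_eq_true (c x) with cx | cx
    · have cy : c y = false := by
        rw [cx] at hxy; cases h : c y
        · rfl
        · exact absurd h.symm hxy
      simp only [cx, cy, if_true, Bool.false_eq_true, if_false]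
      exact main x hx y hy cx cy
    · have cy : c y = true := by
        rw [cx] at hxy; cases h : c y
        · exact absurd h.symm hxy
        · rfl
      simp only [cx, cy, if_true, Bool.false_eq_true, if_false]
      rw [hG (p x), hG x, main y hy x hx cy cx]
      ring
  · refine ⟨b, fun _ => 0, hb, ?_⟩
    intro x hx y hy hxy
    exfalso
    apply hne
    rcases Bool.eq_false_or_eq_true (c x) with cx | cx
    · have cy : c y = false := by
        rw [cx] at hxy; cases h : c y
        · rfl
        · exact absurd h.symm hxy
      exact ⟨⟨x, hx, cx⟩, ⟨y, hy, cy⟩⟩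
    · have cy : c y = true := by
        rw [cx] at hxy; cases h : c y
        · exact absurd h.symm hxy
        · rfl
      exact ⟨⟨y, hy, cy⟩, ⟨x, hx, cx⟩⟩

/-- the vertices of the extension -/
abbrev Ext (n : ℕ) := Bool × Fin n × (Fin n → ZMod 2)

/-- its potential -/
def pot {n : ℕ} (u v : Ext n) : ZMod 2 := u.2.2 v.2.1 + v.2.2 u.2.1

lemma pot_symm {n : ℕ} (u v : Ext n) : pot u v = pot v u := by
  unfold pot; ring

/-- the valuation of a vertex of `A` -/
noncomputable def chi {n : ℕ} (c : Fin n → Bool) (G : Fin n → Fin n → ZMod 2) (x : Fin n) :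
    Fin n → ZMod 2 := fun y => if c x = true then G x y else 0

/-- the embedding -/
noncomputable def emb {n : ℕ} (c : Fin n → Bool) (G : Fin n → Fin n → ZMod 2) :
    Fin n ↪ Ext n where
  toFun x := (c x, x, chi c G x)
  inj' _ _ h := (Prod.mk.inj (Prod.mk.inj h).2).1

lemma emb_apply {n : ℕ} (c : Fin n → Bool) (G : Fin n → Fin n → ZMod 2) (x : Fin n) :
    emb c G x = (c x, x, chi c G x) := rfl

lemma chi_add {n : ℕ} (c : Fin n → Bool) (G : Fin n → Fin n → ZMod 2) (hG : ∀ u v, G u v = G v u)
    {x y : Fin n} (h : c x ≠ c y) : chi c G x y + chi c G y x = G x y := by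
  unfold chi
  rcases Bool.eq_false_or_eq_true (c x) with cx | cx
  · have cy : c y = false := by
      rw [cx] at h; cases h' : c y
      · rfl
      · exact absurd h'.symm h
    simp [cx, cy]
  · have cy : c y = true := by
      rw [cx] at h; cases h' : c y
      · exact absurd h'.symm h
      · rfl
    simp [cx, cy, hG x y]

lemma extend {n : ℕ} (c : Fin n → Bool) (G : Fin n → Fin n → ZMod 2) (hG : ∀ u v, G u v = G v u)
    (S : Finset (Fin n)) (p : Fin n → Fin n) (hinj : Set.InjOn p (S : Set (Fin n)))
    (b : Bool) (s : Fin n → ZMod 2) (hb : ∀ x ∈ S, c (p x) = xor b (c x))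
    (hs : ∀ x ∈ S, ∀ y ∈ S, c x ≠ c y → G (p x) (p y) = G x y + s x + s y) :
    ∃ σ : Ext n ≃ Ext n, (∀ u, (σ u).1 = xor b u.1) ∧
      (∃ t : Ext n → ZMod 2, ∀ u v, u.1 ≠ v.1 → pot (σ u) (σ v) = pot u v + t u + t v) ∧
      ∀ x ∈ S, σ (emb c G x) = emb c G (p x) := by
  -- permutations extending `p` on each class
  have hπ : ∀ β : Bool, ∃ π : Equiv.Perm (Fin n), ∀ x ∈ S, c x = β → π x = p x := by
    intro β
    obtain ⟨g, hg⟩ := Finset.exists_equiv_extend_of_card_eq (α := Fin n) (β := Fin n)
      (t := Finset.univ) (by simp) (s := S) (f := p) (by simp) hinj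
    exact ⟨g.trans (Equiv.subtypeUnivEquiv (by simp)), fun x hx _ => by
      simpa using hg x hx⟩
  choose π hπ using hπ
  -- corrections
  let P : Bool → Fin n → Prop := fun β i => i ∈ S ∧ c i = β
  let E : Bool → Fin n → Fin n → ZMod 2 := fun β i j => chi c G i j + chi c G (p i) (π (!β) j)
  let f : Bool → Fin n → Fin n → ZMod 2 := fun β i j =>
    if P β i then E β i j else if P (!β) j then E (!β) j i + s j else 0
  let F : Ext n → Ext n := fun u =>
    (xor b u.1, π u.1 u.2.1, fun k => u.2.2 ((π (!u.1)).symm k) +
      f u.1 u.2.1 ((π (!u.1)).symm k))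
  have hF : Function.Injective F := by
    rintro ⟨β, i, χ⟩ ⟨β', i', χ'⟩ h
    simp only [F, Prod.mk.injEq] at h
    obtain ⟨h1, h2, h3⟩ := h
    have hβ : β = β' := by
      cases b <;> cases β <;> cases β' <;> simp at h1 ⊢
    subst hβ
    have hi : i = i' := (π β).injective h2
    subst hi
    have hχ : χ = χ' := by
      funext j
      have := congrFun h3 (π (!β) j)
      simp only [Equiv.symm_apply_apply] at this
      exact add_right_cancel this
    rw [hχ]
  let σ : Ext n ≃ Ext n := Equiv.ofBijective F (Finite.injective_iff_bijective.1 hF)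
  have hσ : ∀ u, σ u = F u := fun u => rfl
  refine ⟨σ, fun u => rfl, ⟨fun u => if P u.1 u.2.1 then s u.2.1 else 0, ?_⟩, ?_⟩
  · rintro ⟨β, i, χ⟩ ⟨β', j, ψ⟩ h
    have hβ : β' = !β := by
      cases β <;> cases β' <;> simp at h ⊢
    subst hβ
    rw [hσ, hσ]
    simp only [F, pot, Bool.not_not, Equiv.symm_apply_apply]
    have key : f β i j + f (!β) j i = (if P β i then s i else 0) + (if P (!β) j then s j else 0) := by
      simp only [f, Bool.not_not]
      by_cases h1 : P β i
      · by_cases h2 : P (!β) j
        · simp only [h1, h2, if_true]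
          have hcij : c i ≠ c j := by
            rw [h1.2, h2.2]; cases β <;> simp
          have hcpij : c (p i) ≠ c (p j) := by
            rw [hb i h1.1, hb j h2.1, h1.2, h2.2]; cases β <;> cases b <;> simp
          have e1 : E β i j = chi c G i j + chi c G (p i) (p j) := by
            simp only [E]; rw [hπ (!β) j h2.1 h2.2]
          have e2 : E (!β) j i = chi c G j i + chi c G (p j) (p i) := by
            simp only [E, Bool.not_not]; rw [hπ β i h1.1 h1.2]
          have e3 := chi_add c G hG hcij
          have e4 := chi_add c G hG hcpij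
          have e5 := hs i h1.1 j h2.1 hcij
          rw [e1, e2]
          have e6 : chi c G i j + chi c G (p i) (p j) + (chi c G j i + chi c G (p j) (p i)) =
              (chi c G i j + chi c G j i) + (chi c G (p i) (p j) + chi c G (p j) (p i)) := by ring
          rw [e6, e3, e4, e5]
          generalize G i j = a
          generalize s i = a'
          generalize s j = a''
          revert a a' a''
          decide
        · simp only [h1, h2, if_true, if_false]
          generalize E β i j = a
          generalize s i = a'
          revert a a'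
          decide
      · by_cases h2 : P (!β) j
        · simp only [h1, h2, if_true, if_false]
          generalize E (!β) j i = a
          generalize s j = a'
          revert a a'
          decide
        · simp only [h1, h2, if_false]
    have e1 : χ j + f β i j + (ψ i + f (!β) j i) = (χ j + ψ i) + (f β i j + f (!β) j i) := by ring
    rw [e1, key]
    ring
  · intro x hx
    rw [hσ]
    have hP : P (c x) x := ⟨hx, rfl⟩
    have e1 : emb c G x = (c x, x, chi c G x) := rfl
    have e2 : emb c G (p x) = (c (p x), p x, chi c G (p x)) := rfl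
    rw [e1, e2]
    simp only [F]
    refine Prod.ext (hb x hx).symm (Prod.ext (hπ _ x hx rfl) ?_)
    funext k
    simp only [f, hP, if_true, E, Equiv.apply_symm_apply]
    rw [← add_assoc, add_self, zero_add]

end Pool.Agent.V7H39.EPPA
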